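import Pool.Graph.R_pool_sql_team_39128cda.H.MP_3ab43d_mp.Main

set_option autoImplicit false

namespace Pool.Agent.Results.MP_3ab43d_mp.EmbeddedEigenvalue

open Filter Topology Set Finset MeasureTheory Pool.Agent.H.MP_3ab43d_mp
open scoped InnerProductSpace

/-- `V` is a uniform limit of periodic real sequences. -/
def LimitPeriodic (V : ℤ → ℝ) : Prop :=
  ∀ ε : ℝ, 0 < ε → ∃ p : ℕ, 0 < p ∧ ∃ W : ℤ → ℝ, (∀ n, W (n + p) = W n) ∧ ∀ n, |V n - W n| < ε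

/-- `u` is a solution of the difference equation `H_V u = E u` on `ℤ`. -/
def IsSolution (V : ℤ → ℝ) (E : ℝ) (u : ℤ → ℝ) : Prop :=
  ∀ n, u (n + 1) + u (n - 1) + V n * u n = E * u n

/-- The Hilbert space `ℓ²(ℤ)`. -/
abbrev Ell2 : Type := lp (fun _ : ℤ => ℂ) 2

/-- The `n`-th coordinate of a vector of `ℓ²(ℤ)`. -/
def coord (ψ : Ell2) (n : ℤ) : ℂ := ψ n

/-- The basis vector `δ_j`. -/
noncomputable def delta (j : ℤ) : Ell2 := lp.single 2 j 1

/-- The operator `H` on `ℓ²(ℤ)` is the discrete Schrödinger operator with potential `V`. -/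
def IsSchrodinger (V : ℤ → ℝ) (H : Ell2 →L[ℂ] Ell2) : Prop :=
  ∀ (ψ : Ell2) (n : ℤ), coord (H ψ) n = coord ψ (n + 1) + coord ψ (n - 1) + V n * coord ψ n

/-- `μ` is the spectral measure of `H` and the basis vector `δ_j`: it is finite, and its `k`-th
moment is the matrix entry `⟨δ_j, H ^ k δ_j⟩` for every `k`. -/
def IsSpectralMeasure (H : Ell2 →L[ℂ] Ell2) (j : ℤ) (μ : Measure ℝ) : Prop :=
  IsFiniteMeasure μ ∧ ∀ k : ℕ, Integrable (fun x : ℝ => x ^ k) μ ∧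
    ((∫ x, x ^ k ∂μ : ℝ) : ℂ) = coord ((H ^ k) (delta j)) j

/-- `E` is an eigenvalue of `H_V` with an absolutely summable real eigenvector. -/
def IsEigenvalue (V : ℤ → ℝ) (E : ℝ) : Prop :=
  ∃ u : ℤ → ℝ, u 0 = 1 ∧ Summable (fun n => |u n|) ∧ IsSolution V E u

/-- For every energy in `G` there is a solution bounded by `4` with value `1` at the point `1`. -/
def BoundedStates (V : ℤ → ℝ) (G : Set ℝ) : Prop :=
  ∀ c ∈ G, ∃ φ : ℤ → ℝ, φ 1 = 1 ∧ (∀ n, |φ n| ≤ 4) ∧ IsSolution V c φ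

/-- There are spectral measures of `H_V` such that the one of `δ_0` has an atom at `E` and the one
of `δ_1` is not singular. -/
def MixedSpectrum (V : ℤ → ℝ) (E : ℝ) : Prop :=
  ∃ H, IsSchrodinger V H ∧ ∃ μ : ℤ → Measure ℝ, (∀ j, IsSpectralMeasure H j (μ j)) ∧
    μ 0 {E} ≠ 0 ∧ ¬ Measure.MutuallySingular (μ 1) volume

theorem core : ∃ (V : ℤ → ℝ) (K : ℝ) (G : Set ℝ),
    (∀ ε : ℝ, 0 < ε → ∃ p : ℕ, 0 < p ∧ ∃ W : ℤ → ℝ, Function.Periodic W p ∧
      ∀ n, |V n - W n| < ε) ∧ (∀ n, V (-n) = V n) ∧ (∀ n, |V n| ≤ K) ∧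
    (∃ u : ℤ → ℝ, u 0 = 1 ∧ Summable (fun n => |u n|) ∧
      ∀ n, u (n + 1) + u (n - 1) + V n * u n = 0) ∧
    IsClosed G ∧ 1 ≤ volume G ∧
    ∀ c ∈ G, ∃ φ : ℤ → ℝ, φ 1 = 1 ∧ (∀ n, |φ n| ≤ 4) ∧
      ∀ n, φ (n + 1) + φ (n - 1) + V n * φ n = c * φ n := by
  let l : ℕ → ℝ := fun k => Nat.rec (1 - 1 / 10 ^ 6) (fun k _ => 1 / (8 * (k + 1) * (k + 2))) k
  have l0 : l 0 = 1 - 1 / 10 ^ 6 := rfl
  have lS : ∀ k : ℕ, l (k + 1) = 1 / (8 * (k + 1) * (k + 2)) := fun _ => rfl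
  have lp : ∀ k, 0 < l k := fun k => by
    cases k with
    | zero => rw [l0]; norm_num
    | succ k => rw [lS]; positivity
  have l1 : ∀ k, l k < 1 := fun k => by
    cases k with
    | zero => rw [l0]; norm_num
    | succ k =>
      rw [lS, div_lt_one (by positivity)]
      nlinarith [(Nat.cast_nonneg k : (0 : ℝ) ≤ k)]
  let a := -(l 0 + (l 0)⁻¹)
  obtain ⟨f, f0, hf⟩ := dc (S := ℕ × (ℤ → ℝ) × Set ℝ)
    (fun k s => Inv s.1 s.2.1 (l k) ∧ IsClosed s.2.2 ∧ s.2.2 ⊆ Icc (a - 1) (a + 1) ∧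
      1 + 8 / ((8 * 2 ^ k : ℕ) : ℝ) ≤ volume.real s.2.2 ∧
      (∀ E ∈ s.2.2, Fl s.1 s.2.1 E (1 / (4 * (8 * 2 ^ k : ℕ)))) ∧
      ((l k)⁻¹ - l k) / th s.2.1 0 s.1 ≤ 1 / (24 * (8 * 2 ^ k : ℕ) ^ 4 * s.1))
    (fun k s t => ∃ N ≥ 1, t.1 = (N + 1) * s.1 ∧ t.2.1 = fill s.2.1 t.1 (l (k + 1)) ∧
      t.2.2 ⊆ s.2.2 ∧ |t.2.1 0 - s.2.1 0| ≤ 1 / (8 * 2 ^ k : ℕ) ∧
      (l (k + 1) + (l (k + 1))⁻¹) / th t.2.1 0 t.1 ≤ 1 / (8 * 2 ^ k : ℕ))
    (1, fun _ => a, Icc (a - 1) (a + 1))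
    ⟨inv0 (lp 0) (l1 0), isClosed_Icc, Subset.rfl, by
      rw [Real.volume_real_Icc_of_le (by linarith)]; norm_num, fun E hE => by
      have := fl0 a E (abs_le.2 ⟨by linarith [hE.1], by linarith [hE.2]⟩)
      norm_num at this ⊢
      exact this, by rw [th_one, l0]; norm_num⟩ (by
    rintro k ⟨p, U, G⟩ ⟨i, g1, g2, g3, g4, g5⟩
    obtain ⟨N, N1, G', s1, s2, s3, s4, s5, s6⟩ := step
      (Nat.le_mul_of_pos_right 8 (Nat.two_pow_pos k)) i (lp (k + 1)) (l1 (k + 1)) g1 g2 g3 g4 g5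
    have i' := i.next N (lp (k + 1)) (l1 (k + 1))
    have e : 8 * 2 ^ (k + 1) = 2 * (8 * 2 ^ k) := by ring
    refine ⟨((N + 1) * p, fill U ((N + 1) * p) (l (k + 1)), G'), ⟨i', s2, s1.trans g2, e ▸ s3,
      e ▸ s4, ?_⟩, N, N1, rfl, rfl, s1, s6, s5.trans ?_⟩
    · rw [e]
      refine le_trans (div_le_div_of_nonneg_right ?_ (zero_le_one.trans i'.one)) s5
      linarith [lp (k + 1)]
    · refine one_div_le_one_div_of_le (by positivity) ?_
      have p1 : (1 : ℝ) ≤ ((N + 1) * p : ℕ) := by exact_mod_cast i'.p0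
      obtain ⟨m, hm⟩ : ∃ m, m = 8 * 2 ^ k := ⟨_, rfl⟩
      have m1 : (1 : ℝ) ≤ m := by rw [hm]; exact_mod_cast Nat.mul_pos (by norm_num) (Nat.two_pow_pos k)
      rw [← hm]
      generalize (((N + 1) * p : ℕ) : ℝ) = x at *
      push_cast
      have : (m : ℝ) ≤ (2 * m) ^ 4 := le_trans (by linarith) (le_self_pow₀ (by linarith) (by norm_num))
      nlinarith)
  choose N N1 h1 h2 h3 h4 h5 using fun k => (hf k).2
  have hi : Hier l N (fun k => (f k).1) fun k => (f k).2.1 :=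
    ⟨lp, l1, N1, by simp only [f0], h1, by simp only [f0]; rfl, h2⟩
  have sd : Summable fun k : ℕ => (1 : ℝ) / (8 * 2 ^ k : ℕ) := by
    refine (summable_geometric_two.mul_left (1 / 8)).congr fun k => ?_
    push_cast
    rw [one_div_pow, one_div_mul_one_div]
  obtain ⟨V, v1, v2, v3, u, u0, us, ue⟩ := hi.limit _ sd h4 (by
    rw [← tendsto_add_atTop_iff_nat 1]
    exact squeeze_zero (fun k => div_nonneg (by have := lp (k + 1); positivity)
      (zero_le_one.trans (hi.inv _).one)) h5 sd.tendsto_atTop_zero) _ (prodb l (lp 0) (l1 0) lS)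
  have fin : ∀ k, volume (f k).2.2 ≠ ⊤ := fun k =>
    ne_top_of_le_ne_top measure_Icc_lt_top.ne (measure_mono (hf k).1.2.2.1)
  have big : 1 ≤ volume (⋂ k, (f k).2.2) := by
    have := ge_of_tendsto' (tendsto_measure_iInter_atTop
      (fun k => (hf k).1.2.1.measurableSet.nullMeasurableSet) (antitone_nat_of_succ_le h3)
      ⟨0, fin 0⟩) (b := ENNReal.ofReal 1) fun k => (ENNReal.ofReal_le_iff_le_toReal (fin k)).2
        ((le_add_of_nonneg_right (by positivity)).trans (hf k).1.2.2.2.1)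
    rwa [ENNReal.ofReal_one] at this
  refine ⟨V, |a| + ∑' m : ℕ, (1 : ℝ) / (8 * 2 ^ (m + 0) : ℕ), ⋂ k, (f k).2.2,
    lp_of (d := fun k => (1 : ℝ) / (8 * 2 ^ k : ℕ)) hi.inv v1, v3, fun n => ?_,
    ⟨u, u0, us, ue⟩, isClosed_iInter fun k => (hf k).1.2.1, big, fun c hc => ?_⟩
  · have := v1 0 n
    rw [f0] at this
    linarith [abs_sub_abs_le_abs_sub (V n) a]
  · obtain ⟨φ, a1, a2, a3⟩ := extend V v3 c (-1) (by simp) (th V c) (th_add V c)
      (by simp [th_zero]) (by simp [th_zero])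
    refine ⟨φ, a1 1, fun n => ?_, a3⟩
    rw [a2, th_congr (v2 n.natAbs) c _ ((hi.lt (n.natAbs + 1)).le.trans' (Nat.le_succ _))]
    exact ((hf _).1.2.2.2.2.1 c (mem_iInter.1 hc _)).bd (hi.inv _) (by positivity) _

/-- For every real `E` there is a limit-periodic potential (even, too) for which `E` is an
eigenvalue with an absolutely summable eigenvector, while a closed set of energies of Lebesgue
measure at least `1` has bounded solutions; so the point spectrum and the absolutely continuous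
part are both nonzero. -/
theorem result (E : ℝ) : ∃ V : ℤ → ℝ, LimitPeriodic V ∧ (∀ n, V (-n) = V n) ∧
    IsEigenvalue V E ∧ (∃ G : Set ℝ, IsClosed G ∧ 1 ≤ volume G ∧ BoundedStates V G) ∧
    MixedSpectrum V E := by
  obtain ⟨V, K, G, h1, h2, h3, ⟨u, u0, us, ue⟩, g1, g2, g3⟩ := core
  have ue' : ∀ n, u (n + 1) + u (n - 1) + (V n + E) * u n = E * u n := fun n => by
    linarith [ue n]
  have g3' : ∀ c ∈ (fun x => x - E) ⁻¹' G, ∃ φ : ℤ → ℝ, φ 1 = 1 ∧ (∀ n, |φ n| ≤ 4) ∧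
      ∀ n, φ (n + 1) + φ (n - 1) + (V n + E) * φ n = c * φ n := fun c hc => by
    obtain ⟨φ, a1, a2, a3⟩ := g3 _ hc
    exact ⟨φ, a1, a2, fun n => by linarith [a3 n]⟩
  have gc : IsClosed ((fun x => x - E) ⁻¹' G) := g1.preimage (by fun_prop)
  have gv : 1 ≤ volume ((fun x => x - E) ⁻¹' G) := by
    simp only [sub_eq_add_neg]; rw [measure_preimage_add_right]; exact g2
  have hK : ∀ n, |V n + E| ≤ K + |E| := fun n => (abs_add_le _ _).trans (by linarith [h3 n])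
  obtain ⟨H, hs, hH⟩ := exH (fun n => V n + E) (K + |E|) hK
  choose μ hμ using fun j => specM H hs (dl j)
  refine ⟨fun n => V n + E, fun ε hε => ?_, fun n => congrArg (· + E) (h2 n), ⟨u, u0, us, ue'⟩,
    ⟨_, gc, gv, g3'⟩, H, hH, μ, fun j => ⟨(hμ j).1, fun k => ?_⟩, ?_,
    (hμ 1).nsing hs _ gc.measurableSet ?_ (12 * 4 ^ 2) fun c hc L hL => ?_⟩
  · obtain ⟨p, hp, W, w1, w2⟩ := h1 ε hε
    exact ⟨p, hp, fun n => W n + E, fun n => congrArg (· + E) (w1 n), fun n => by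
      rw [add_sub_add_right_eq_sub]; exact w2 n⟩
  · refine ⟨((hμ j).mom hs k).1, ?_⟩
    rw [((hμ j).mom hs k).2, dl_inner]; rfl
  · have m1 : Memℓp (fun n => (u n : ℂ)) 1 := memℓp_gen (by simpa using us)
    let w : L2 := ⟨fun n => (u n : ℂ), m1.of_exponent_ge one_le_two⟩
    have hw : ∀ n, w n = (u n : ℂ) := fun _ => rfl
    refine (hμ 0).atom hs E w (lp.ext (funext fun n => ?_)) ?_
    · rw [hH, hw, hw, hw]
      simp only [lp.coeFn_smul, Pi.smul_apply, smul_eq_mul, hw]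
      exact_mod_cast ue' n
    · rw [← inner_conj_symm, dl_inner, hw, u0]
      simp
  · exact (lt_of_lt_of_le zero_lt_one gv).ne'
  · obtain ⟨φ, a1, a2, a3⟩ := g3' c hc
    exact test hH 1 c 4 φ a1 a2 a3 L hL

end Pool.Agent.Results.MP_3ab43d_mp.EmbeddedEigenvalue
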